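import Pool.Agent.Y6.F.Chn

/-!
# EF-CH4: the cascade in the truncated chain
-/

open Set Filter Topology
open scoped ComplexConjugate

set_option autoImplicit false

namespace Pool.Agent.Y532.EF.Chain

open Pool.Agent.Y6.F
open Pool.Agent.Y6.M (cX cY Uth εc x0)

/-! ### numbers -/

lemma exp_small {x : ℝ} (hx : x ≤ 1 / 1000) : Real.exp x ≤ 1002 / 1000 := by
  have h1 : Real.exp x ≤ Real.exp (1 / 1000) := Real.exp_le_exp.2 hx
  have h2 := Real.add_one_le_exp (-(1 / 1000 : ℝ))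
  have h3 : Real.exp (1 / 1000) * Real.exp (-(1 / 1000)) = 1 := by
    rw [← Real.exp_add]
    norm_num
  have h4 := Real.exp_pos (1 / 1000 : ℝ)
  nlinarith

lemma log_le_sqrt {a : ℝ} (ha : 0 < a) : Real.log a ≤ 2 * √a := by
  have h1 : a = √a * √a := (Real.mul_self_sqrt ha.le).symm
  have h2 : 0 < √a := Real.sqrt_pos.2 ha
  have h3 : Real.log a = Real.log √a + Real.log √a := by
    conv_lhs => rw [h1]
    exact Real.log_mul h2.ne' h2.ne'
  have h4 := Real.log_le_sub_one_of_pos h2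
  linarith

lemma pow_exp {a : ℝ} (ha0 : 0 < a) (K : ℕ) : a ^ K = Real.exp (K * Real.log a) := by
  rw [mul_comm, Real.exp_mul, Real.exp_log ha0, Real.rpow_natCast]

lemma num0 {a : ℝ} (ha : 10 ^ 100 ≤ a) : 10 * a ^ 120 ≤ Real.exp (9 / 10 * a * (49 / 100) * 1) := by
  have h0 : (0 : ℝ) < 10 ^ 100 := by positivity
  have ha0 : 0 < a := h0.trans_le ha
  have hs : (10 : ℝ) ^ 50 ≤ √a := by
    apply Real.le_sqrt_of_sq_le
    calc ((10 : ℝ) ^ 50) ^ 2 = 10 ^ 100 := by rw [← pow_mul]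
      _ ≤ a := ha
  have hs2 : √a * √a = a := Real.mul_self_sqrt ha0.le
  have h1 : (10 : ℝ) * a ^ 120 = Real.exp (Real.log 10 + 120 * Real.log a) := by
    rw [Real.exp_add, Real.exp_log (by norm_num)]
    congr 1
    rw [mul_comm, Real.exp_mul, Real.exp_log ha0]
    norm_cast
  rw [h1]
  apply Real.exp_le_exp.2
  have h2 := log_le_sqrt ha0
  have h3 : Real.log 10 ≤ 9 := by
    have := Real.log_le_sub_one_of_pos (by norm_num : (0 : ℝ) < 10)
    linarith
  have h4 : (10 : ℝ) ^ 3 ≤ √a := le_trans (by norm_num) hs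
  nlinarith

lemma num1 {a : ℝ} (ha : 10 ^ 100 ≤ a) (n : ℕ) :
    10 * a ^ ((2 * n + 60) * (2 * n + 62) * (n + 3)) ≤ Real.exp (81 / 100 * a ^ (n + 28)) := by
  have h0 : (0 : ℝ) < 10 ^ 100 := by positivity
  have ha0 : 0 < a := h0.trans_le ha
  have ha5 : (10 : ℝ) ^ 6 ≤ a := le_trans (by norm_num) ha
  have ha1 : (1 : ℝ) ≤ a := le_trans (by norm_num) ha5
  have h1 : (10 : ℝ) * a ^ ((2 * n + 60) * (2 * n + 62) * (n + 3)) = Real.exp (Real.log 10 +
      ((2 * n + 60) * (2 * n + 62) * (n + 3) : ℕ) * Real.log a) := by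
    rw [Real.exp_add, Real.exp_log (by norm_num), pow_exp ha0]
  rw [h1]
  apply Real.exp_le_exp.2
  have h3 : Real.log 10 ≤ 9 := by
    have := Real.log_le_sub_one_of_pos (by norm_num : (0 : ℝ) < 10)
    linarith
  have h4 : Real.log a ≤ a := by
    have := Real.log_le_sub_one_of_pos ha0
    linarith
  have hK : (((2 * n + 60) * (2 * n + 62) * (n + 3) : ℕ) : ℝ) ≤ a ^ (n + 2) := by
    have e1 : (2 * n + 60) * (2 * n + 62) * (n + 3) ≤ 11160 * (n + 1) ^ 3 := by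
      have i1 : 2 * n + 60 ≤ 60 * (n + 1) := by omega
      have i2 : 2 * n + 62 ≤ 62 * (n + 1) := by omega
      have i3 : n + 3 ≤ 3 * (n + 1) := by omega
      calc (2 * n + 60) * (2 * n + 62) * (n + 3)
          ≤ (60 * (n + 1)) * (62 * (n + 1)) * (3 * (n + 1)) :=
            Nat.mul_le_mul (Nat.mul_le_mul i1 i2) i3
        _ = 11160 * (n + 1) ^ 3 := by ring
    have e2 : (n + 1) ^ 3 ≤ 8 ^ (n + 1) := by
      have i1 : n + 1 ≤ 2 ^ (n + 1) := (Nat.lt_two_pow_self).le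
      calc (n + 1) ^ 3 ≤ (2 ^ (n + 1)) ^ 3 := Nat.pow_le_pow_left i1 3
        _ = 8 ^ (n + 1) := by rw [← pow_mul, mul_comm, pow_mul]; norm_num
    have e3 : (((2 * n + 60) * (2 * n + 62) * (n + 3) : ℕ) : ℝ) ≤ 11160 * 8 ^ (n + 1) := by
      exact_mod_cast e1.trans (Nat.mul_le_mul_left 11160 e2)
    refine e3.trans ?_
    have e4 : (8 : ℝ) ^ (n + 1) ≤ a ^ (n + 1) :=
      pow_le_pow_left₀ (by norm_num) (le_trans (by norm_num) ha5) _
    have e5 : a ^ (n + 2) = a * a ^ (n + 1) := by ring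
    rw [e5]
    exact mul_le_mul (le_trans (by norm_num) ha5) e4 (by positivity) ha0.le
  have h5 : (((2 * n + 60) * (2 * n + 62) * (n + 3) : ℕ) : ℝ) * Real.log a ≤ a ^ (n + 3) := by
    calc (((2 * n + 60) * (2 * n + 62) * (n + 3) : ℕ) : ℝ) * Real.log a
        ≤ (((2 * n + 60) * (2 * n + 62) * (n + 3) : ℕ) : ℝ) * a :=
          mul_le_mul_of_nonneg_left h4 (Nat.cast_nonneg _)
      _ ≤ a ^ (n + 2) * a := mul_le_mul_of_nonneg_right hK ha0.le
      _ = a ^ (n + 3) := by ring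
  have h6 : a ^ (n + 28) = a ^ 25 * a ^ (n + 3) := by ring
  have h7 : (10 : ℝ) ^ 6 ≤ a ^ 25 := ha5.trans (le_self_pow₀ ha1 (by norm_num))
  have h8 : 1 ≤ a ^ (n + 3) := one_le_pow₀ ha1
  rw [h6]
  nlinarith

section

variable {α : ℕ → ℝ}

lemma big (h0 : 10 ^ 100 ≤ α 0) (hs : ∀ n, α (n + 1) = α n ^ (2 * n + 60)) (n : ℕ) :
    10 ^ 100 ≤ α n := by
  induction n with
  | zero => exact h0
  | succ n ih =>
    rw [hs]
    have h1 : (1 : ℝ) ≤ α n := le_trans (by norm_num) ih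
    exact ih.trans (le_self_pow₀ h1 (by omega))

lemma Uth_pos (h : ∀ n, 10 ^ 100 ≤ α n) (n : ℕ) : 0 < Uth α n := by
  have h1 : (0 : ℝ) < α n := lt_of_lt_of_le (by positivity) (h n)
  unfold Uth
  exact inv_pos.2 (Real.sqrt_pos.2 h1)

lemma Uth_le (h : ∀ n, 10 ^ 100 ≤ α n) (n : ℕ) : Uth α n ≤ 1 := by
  unfold Uth
  apply inv_le_one_of_one_le₀
  apply Real.le_sqrt_of_sq_le
  rw [one_pow]
  exact le_trans (by norm_num) (h n)

lemma εc_lt (h : ∀ n, 10 ^ 100 ≤ α n) (n : ℕ) : εc α (n + 1) < 2 * Uth α (n + 1) := by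
  have h1 : (1 : ℝ) ≤ α (n + 1) := le_trans (by norm_num) (h (n + 1))
  have h2 : (0 : ℝ) < α (n + 1) := by linarith
  have h3 : √(α (n + 1)) ≤ α (n + 1) ^ (n + 1 + 1) := by
    have e1 : √(α (n + 1)) ≤ α (n + 1) := by
      rw [Real.sqrt_le_left h2.le]
      nlinarith
    exact e1.trans (le_self_pow₀ h1 (by omega))
  have h4 : εc α (n + 1) ≤ Uth α (n + 1) := by
    unfold εc Uth
    exact inv_anti₀ (Real.sqrt_pos.2 h2) h3
  have := Uth_pos h (n + 1)
  linarith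

/-- a level below the last one stays strictly below twice its threshold -/
lemma strict (h : ∀ n, 10 ^ 100 ≤ α n) (hs : ∀ n, α (n + 1) = α n ^ (2 * n + 60))
    {ν : ℕ → ℝ → ℝ} {x : ℕ → ℝ → ℂ} {θ : ℝ} (hθ0 : 0 ≤ θ) (n : ℕ)
    (h0 : ν n 0 = εc α (n + 1)) (h0' : ν (n + 1) 0 = εc α (n + 2))
    (hlo : ∀ t ∈ Icc (0 : ℝ) θ, 48 / 100 * ν n t ≤ ‖x (n + 1) t‖)
    (h3 : ∀ s t : ℝ, 0 ≤ s → s ≤ t → t ≤ θ → ν n t ≤ ν n s * Real.exp (9 * α n * (t - s)))
    (h2 : ∀ s t c : ℝ, 0 ≤ s → s ≤ t → t ≤ θ → 0 ≤ c → (∀ r ∈ Icc s t, c ≤ ‖x (n + 1) r‖) →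
      ν (n + 1) s * Real.exp (9 / 10 * α (n + 1) * c * (t - s)) ≤ 101 / 100 * ν (n + 1) t)
    (hup : 48 / 100 * ν (n + 1) θ ≤ ‖x (n + 2) θ‖) (hU : ‖x (n + 2) θ‖ ≤ 2 * Uth α (n + 2))
    (hpos : ∀ t ∈ Icc (0 : ℝ) θ, 0 < ν n t)
    (hbad : 2 * Uth α (n + 1) ≤ 102 / 100 * ν n θ) : False := by
  obtain ⟨a, ha⟩ : ∃ a, a = α n := ⟨_, rfl⟩
  have hab : 10 ^ 100 ≤ a := by rw [ha]; exact h n
  have ha4 : (10 : ℝ) ^ 4 ≤ a := le_trans (by norm_num) hab
  have ha0 : 0 < a := lt_of_lt_of_le (by norm_num) ha4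
  have ha1 : 1 ≤ a := le_trans (by norm_num) ha4
  have hA : α (n + 1) = (a ^ (n + 30)) ^ 2 := by
    rw [hs, ← ha, ← pow_mul]
    congr 1
    ring
  have hA2 : α (n + 2) = a ^ ((2 * n + 60) * (2 * n + 62)) := by
    have e1 : α (n + 2) = α (n + 1) ^ (2 * (n + 1) + 60) := hs (n + 1)
    rw [e1, hs, ← ha, ← pow_mul]
    congr 1
  obtain ⟨U, hUd⟩ : ∃ U, U = Uth α (n + 1) := ⟨_, rfl⟩
  have hUe : U = (a ^ (n + 30))⁻¹ := by
    rw [hUd]
    unfold Uth
    rw [hA, Real.sqrt_sq (by positivity)]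
  have hU0 : 0 < U := by rw [hUd]; exact Uth_pos h (n + 1)
  have hU1 : U ≤ 1 := by rw [hUd]; exact Uth_le h (n + 1)
  rw [← hUd] at hbad
  obtain ⟨δ, hδ⟩ : ∃ δ, δ = (a ^ 2)⁻¹ := ⟨_, rfl⟩
  have hδ0 : 0 < δ := by rw [hδ]; positivity
  have hδa : 9 * a * δ ≤ 1 / 1000 := by
    have e1 : 9 * a * δ = 9 / a := by
      rw [hδ]
      field_simp
    rw [e1, div_le_div_iff₀ ha0 (by norm_num)]
    linarith
  -- the lower bound near `θ`
  have key : ∀ t ∈ Icc (0 : ℝ) θ, θ - δ ≤ t → 19 / 10 * U ≤ ν n t := by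
    intro t ht htδ
    have e1 := h3 t θ ht.1 ht.2 le_rfl
    rw [← ha] at e1
    have e2 : 9 * a * (θ - t) ≤ 1 / 1000 :=
      le_trans (mul_le_mul_of_nonneg_left (by linarith) (by positivity)) hδa
    have e3 := exp_small e2
    have e4 := hpos t ht
    have e5 : ν n t * Real.exp (9 * a * (θ - t)) ≤ ν n t * (1002 / 1000) :=
      mul_le_mul_of_nonneg_left e3 e4.le
    nlinarith
  have hδθ : δ ≤ θ := by
    by_contra hcon
    push Not at hcon
    have e1 := key 0 ⟨le_rfl, hθ0⟩ (by linarith)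
    rw [h0] at e1
    have e2 := εc_lt h n
    have e3 : εc α (n + 1) ≤ U := by
      have i1 : (1 : ℝ) ≤ α (n + 1) := le_trans (by norm_num) (h (n + 1))
      have i2 : (0 : ℝ) < α (n + 1) := by linarith
      have i3 : √(α (n + 1)) ≤ α (n + 1) ^ (n + 1 + 1) := by
        have j1 : √(α (n + 1)) ≤ α (n + 1) := by
          rw [Real.sqrt_le_left i2.le]
          nlinarith
        exact j1.trans (le_self_pow₀ i1 (by omega))
      rw [hUd]
      unfold εc Uth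
      exact inv_anti₀ (Real.sqrt_pos.2 i2) i3
    linarith
  have f1 := h2 (θ - δ) θ (9 / 10 * U) (by linarith) (by linarith) le_rfl (by positivity) (by
    intro r hr
    have hr' : r ∈ Icc (0 : ℝ) θ := ⟨by linarith [hr.1], hr.2⟩
    have i1 := key r hr' hr.1
    have i2 := hlo r hr'
    nlinarith)
  have f2 := h2 0 (θ - δ) 0 le_rfl (by linarith) (by linarith) le_rfl (fun r _ => norm_nonneg _)
  have f3 : 9 / 10 * α (n + 1) * (9 / 10 * U) * (θ - (θ - δ)) = 81 / 100 * a ^ (n + 28) := by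
    have i1 : α (n + 1) * U = a ^ (n + 30) := by
      rw [hA, hUe, sq, mul_assoc, mul_inv_cancel₀ (by positivity), mul_one]
    have i2 : a ^ (n + 30) * δ = a ^ (n + 28) := by
      have i3 : a ^ (n + 30) = a ^ (n + 28) * a ^ 2 := by ring
      rw [hδ, i3, mul_assoc, mul_inv_cancel₀ (by positivity), mul_one]
    calc 9 / 10 * α (n + 1) * (9 / 10 * U) * (θ - (θ - δ))
        = 81 / 100 * ((α (n + 1) * U) * δ) := by ring
      _ = _ := by rw [i1, i2]
  rw [f3] at f1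
  have f4 : 9 / 10 * α (n + 1) * 0 * (θ - δ - 0) = 0 := by ring
  rw [f4, Real.exp_zero, mul_one, h0'] at f2
  have f5 : 10 ≤ εc α (n + 2) * Real.exp (81 / 100 * a ^ (n + 28)) := by
    have i1 := num1 hab n
    have i2 : εc α (n + 2) = (a ^ ((2 * n + 60) * (2 * n + 62) * (n + 3)))⁻¹ := by
      unfold εc
      rw [hA2, ← pow_mul]
    have i3 : 0 < a ^ ((2 * n + 60) * (2 * n + 62) * (n + 3)) := by positivity
    rw [i2, inv_mul_eq_div, le_div_iff₀ i3]
    exact i1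
  have f6 := Uth_le h (n + 2)
  have f7 := Real.exp_pos (81 / 100 * a ^ (n + 28))
  have f8 : εc α (n + 2) * Real.exp (81 / 100 * a ^ (n + 28)) ≤
      101 / 100 * (ν (n + 1) (θ - δ) * Real.exp (81 / 100 * a ^ (n + 28))) := by
    have := mul_le_mul_of_nonneg_right f2 f7.le
    linarith
  linarith

end

/-- **The cascade in the truncated chain.** -/
theorem t_CHAIN : S_LVL → S_CHAIN := by
  intro hL α G b d hC N x y f g hD hxz hyz hx0 hy0 hP
  have hb : ∀ n, 10 ^ 100 ≤ α n := big hC.A0 hC.step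
  -- the growth of the levels
  have lvl : ∀ θ ∈ Icc (0 : ℝ) 1, Cnd α x y θ → _ := fun θ hθ hc =>
    hL α G b d hC (N + 1) θ x y f g hθ.1 hθ.2
      ⟨fun n hn t ht => (hD.dx n hn t ⟨ht.1, ht.2.trans hθ.2⟩).mono (Icc_subset_Icc_right hθ.2),
        fun n hn t ht => (hD.dy n hn t ⟨ht.1, ht.2.trans hθ.2⟩).mono (Icc_subset_Icc_right hθ.2),
        fun n t ht => hD.one n t ⟨ht.1, ht.2.trans hθ.2⟩⟩ hx0 hy0 hc (hP θ hθ hc)
  by_contra hcon
  push Not at hcon
  -- continuity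
  have cx : ∀ n, ContinuousOn (x n) (Icc 0 1) := by
    intro n
    by_cases hn : n ≤ N + 1
    · exact fun t ht => (hD.dx n hn t ht).continuousWithinAt
    · exact continuousOn_const.congr fun t ht => hxz n (by omega) t ht
  have cy : ∀ n, ContinuousOn (y n) (Icc 0 1) := by
    intro n
    by_cases hn : n < N + 1
    · exact fun t ht => (hD.dy n hn t ht).continuousWithinAt
    · exact continuousOn_const.congr fun t ht => hyz n (by omega) t ht
  have hUp := Uth_pos hb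
  -- the set is closed
  have hclosed : IsClosed ({θ | Cnd α x y θ} ∩ Icc (0 : ℝ) 1) := by
    have e1 : {θ | Cnd α x y θ} ∩ Icc (0 : ℝ) 1 = ⋂ (n : ℕ) (t : Icc (0 : ℝ) 1),
        ((Icc (0 : ℝ) 1 ∩ (fun θ => ‖x (n + 1) (min t.1 θ)‖) ⁻¹' Iic (2 * Uth α (n + 1))) ∩
        (Icc (0 : ℝ) 1 ∩ (fun θ => ‖y n (min t.1 θ)‖) ⁻¹' Iic (2 * Uth α (n + 1)))) := by
      ext θ
      simp only [mem_inter_iff, mem_iInter, mem_preimage, mem_Iic]
      constructor
      · rintro ⟨h1, h2⟩ n t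
        have h3 := h1 n (min t.1 θ) ⟨le_min t.2.1 h2.1, min_le_right _ _⟩
        exact ⟨⟨h2, h3.1⟩, ⟨h2, h3.2⟩⟩
      · intro h1
        have h2 : θ ∈ Icc (0 : ℝ) 1 := (h1 0 ⟨0, by simp⟩).1.1
        refine ⟨?_, h2⟩
        intro n t ht
        have h3 := h1 n ⟨t, ht.1, ht.2.trans h2.2⟩
        simp only [min_eq_left ht.2] at h3
        exact ⟨h3.1.2, h3.2.2⟩
    rw [e1]
    refine isClosed_iInter fun n => isClosed_iInter fun t => ?_
    have hmap : MapsTo (fun θ : ℝ => min t.1 θ) (Icc 0 1) (Icc 0 1) := fun θ hθ =>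
      ⟨le_min t.2.1 hθ.1, (min_le_right _ _).trans hθ.2⟩
    have hmc : ContinuousOn (fun θ : ℝ => min t.1 θ) (Icc 0 1) :=
      (continuous_const.min continuous_id).continuousOn
    refine IsClosed.inter ?_ ?_
    · exact (((cx (n + 1)).comp hmc hmap).norm).preimage_isClosed_of_isClosed isClosed_Icc
        isClosed_Iic
    · exact (((cy n).comp hmc hmap).norm).preimage_isClosed_of_isClosed isClosed_Icc
        isClosed_Iic
  -- at time zero
  have hst0 : ∀ n, ‖x (n + 1) 0‖ < 2 * Uth α (n + 1) ∧ ‖y n 0‖ < 2 * Uth α (n + 1) := by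
    intro n
    constructor
    · by_cases hn : n + 1 ≤ N + 1
      · rw [hx0 (n + 1) hn]
        have e1 := εc_lt hb n
        have e2 : 0 < εc α (n + 1) := by
          unfold εc
          have := hb (n + 1)
          have h3 : (0 : ℝ) < α (n + 1) := lt_of_lt_of_le (by positivity) this
          positivity
        have e3 : ‖((x0 α (n + 1) : ℝ) : ℂ)‖ = εc α (n + 1) := by
          rw [Complex.norm_real]
          exact abs_of_pos e2
        rw [e3]
        exact e1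
      · rw [hxz (n + 1) (by omega) 0 ⟨le_rfl, zero_le_one⟩, norm_zero]
        have := hUp (n + 1)
        linarith
    · rw [hy0 n, norm_zero]
      have := hUp (n + 1)
      linarith
  have hc0 : Cnd α x y 0 := by
    intro n t ht
    have ht0 : t = 0 := le_antisymm ht.2 ht.1
    rw [ht0]
    exact ⟨(hst0 n).1.le, (hst0 n).2.le⟩
  -- strict inequalities
  have hstrict : ∀ θ ∈ Icc (0 : ℝ) 1, Cnd α x y θ → ∀ n, ‖x (n + 1) θ‖ < 2 * Uth α (n + 1) ∧
      ‖y n θ‖ < 2 * Uth α (n + 1) := by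
    intro θ hθ hc n
    rcases hθ.1.eq_or_lt with h0 | h0
    · rw [← h0]
      exact hst0 n
    by_cases hn : n < N
    · obtain ⟨-, ν, hν⟩ := lvl θ hθ hc
      obtain ⟨a1, a2, a3, a4⟩ := hν n (by omega)
      obtain ⟨b1, b2, b3, b4⟩ := hν (n + 1) (by omega)
      have hθθ : θ ∈ Icc (0 : ℝ) θ := ⟨hθ.1, le_rfl⟩
      have hno : ¬ 2 * Uth α (n + 1) ≤ 102 / 100 * ν n θ := fun hbad =>
        strict hb hC.step hθ.1 n a1 b1 (fun t ht => (a2 t ht).2.1) a4 b3 (b2 θ hθθ).2.1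
          (hc (n + 1) θ hθθ).1 (fun t ht => (a2 t ht).1) hbad
      push Not at hno
      have c1 := (a2 θ hθθ).2.2
      exact ⟨lt_of_le_of_lt c1.1 hno, lt_of_le_of_lt c1.2 hno⟩
    · by_cases hn2 : n = N
      · subst hn2
        have h1 := hcon θ h0 hθ.2 hc
        have := hUp (n + 1)
        exact ⟨by linarith [h1.1], by linarith [h1.2]⟩
      · have := hUp (n + 1)
        rw [hxz (n + 1) (by omega) θ hθ, hyz n (by omega) θ hθ, norm_zero]
        exact ⟨by linarith, by linarith⟩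
  -- continuation
  have hgt : ∀ θ ∈ {θ | Cnd α x y θ} ∩ Ico (0 : ℝ) 1, ∀ z ∈ Ioi θ,
      ({θ | Cnd α x y θ} ∩ Ioc θ z).Nonempty := by
    rintro θ ⟨hc, hθ⟩ z hz
    have hθ' : θ ∈ Icc (0 : ℝ) 1 := ⟨hθ.1, hθ.2.le⟩
    have hs := hstrict θ hθ' hc
    have hev : ∀ᶠ t in 𝓝[Icc (0 : ℝ) 1] θ, ∀ n ∈ Finset.range (N + 1),
        ‖x (n + 1) t‖ < 2 * Uth α (n + 1) ∧ ‖y n t‖ < 2 * Uth α (n + 1) := by
      rw [Filter.eventually_all_finset]
      intro n _
      have h1 := ((cx (n + 1)) θ hθ').norm.eventually_lt_const (hs n).1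
      have h2 := ((cy n) θ hθ').norm.eventually_lt_const (hs n).2
      exact h1.and h2
    obtain ⟨ε, hε, hball⟩ := Metric.mem_nhdsWithin_iff.1 hev
    obtain ⟨z', hz'⟩ : ∃ z', z' = min z (min (θ + ε / 2) 1) := ⟨_, rfl⟩
    have hz1 : θ < z' := by
      rw [hz']
      exact lt_min hz (lt_min (by linarith) hθ.2)
    have hz2 : z' ≤ z := by rw [hz']; exact min_le_left _ _
    have hz3 : z' ≤ θ + ε / 2 := by
      rw [hz']; exact (min_le_right _ _).trans (min_le_left _ _)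
    have hz4 : z' ≤ 1 := by
      rw [hz']; exact (min_le_right _ _).trans (min_le_right _ _)
    refine ⟨z', ?_, hz1, hz2⟩
    intro n t ht
    rcases le_or_gt t θ with h1 | h1
    · exact hc n t ⟨ht.1, h1⟩
    · have ht1 : t ∈ Icc (0 : ℝ) 1 := ⟨ht.1, ht.2.trans hz4⟩
      by_cases hn : n < N + 1
      · have h2 : t ∈ Metric.ball θ ε ∩ Icc (0 : ℝ) 1 := by
          refine ⟨?_, ht1⟩
          rw [Metric.mem_ball, Real.dist_eq, abs_of_pos (by linarith)]
          linarith [ht.2]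
        have h3 := hball h2 n (Finset.mem_range.2 hn)
        exact ⟨h3.1.le, h3.2.le⟩
      · have := hUp (n + 1)
        rw [hxz (n + 1) (by omega) t ht1, hyz n (by omega) t ht1, norm_zero]
        exact ⟨by linarith, by linarith⟩
  have hall := hclosed.Icc_subset_of_forall_exists_gt hc0 hgt
  -- the contradiction at time one
  have h11 : (1 : ℝ) ∈ Icc (0 : ℝ) 1 := ⟨zero_le_one, le_rfl⟩
  have hc1 : Cnd α x y 1 := hall h11
  obtain ⟨h49, ν, hν⟩ := lvl 1 h11 hc1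
  obtain ⟨a1, a2, a3, a4⟩ := hν 0 (by omega)
  have e1 := a3 0 1 (49 / 100) le_rfl zero_le_one le_rfl (by norm_num) h49
  rw [a1] at e1
  have e2 := (a2 1 h11).2.1
  have e3 := (hc1 0 1 h11).1
  have e4 := Uth_le hb (0 + 1)
  have e5 := num0 (hb 0)
  have e6 : εc α (0 + 1) = (α 0 ^ 120)⁻¹ := by
    unfold εc
    rw [hC.step, ← pow_mul]
  have e7 : 10 ≤ εc α (0 + 1) * Real.exp (9 / 10 * α 0 * (49 / 100) * (1 - 0)) := by
    have h0 : (0 : ℝ) < α 0 := lt_of_lt_of_le (by positivity) (hb 0)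
    rw [e6, inv_mul_eq_div, le_div_iff₀ (by positivity), sub_zero]
    exact e5
  linarith

end Pool.Agent.Y532.EF.Chain
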